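import Pool.Agent.H95.ND.Targets

/-! Module JC1 of Part D2 of MP_57ddd5_pr: chain over scales, one environment, in the box. -/

open MeasureTheory ProbabilityTheory
open scoped ENNReal

namespace Pool.Agent.H42.PD

open Pool.Agent.H99.NS Pool.Agent.H22.LPP Pool.Agent.H95.INS Pool.Agent.H76.ND Pool.Agent.H95.ND
open Pool.Agent.H97.NF (PEnv eA eB PN)

theorem lv_mono' {i k : ℕ} (h : i ≤ k) : lv i ≤ lv k := by
  unfold lv
  have : (64 : ℤ) ^ (i - 1) ≤ 64 ^ (k - 1) := pow_le_pow_right₀ (by norm_num) (by omega)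
  omega

theorem lv_pos' (i : ℕ) : 0 < lv i := by unfold lv; positivity

theorem lv_eq_dk (c : Cst) (Xc : ℤ) (k : ℕ) : 4 * (dk c Xc k).n = lv k := by
  show 4 * (8 * 64 ^ (k - 1)) = (32 * 64 ^ (k - 1) : ℤ)
  ring

theorem mem_Bx_dk (c : Cst) (Xc : ℤ) (k : ℕ) (x : Site) :
    x ∈ Bx (dk c Xc k) ↔ -lv k < x.1 ∧ x.1 ≤ lv k ∧ |x.2| < c.A * 16 ^ k := by
  unfold Bx
  rw [Set.mem_ofPred_eq, lv_eq_dk]
  exact Iff.rfl

theorem pf_JC1 (h1 : T_CHV) (h2 : T_FCI) (h3 : T_FCD) (h4 : T_PAT) (h5 : T_SMF) (h6 : T_D3A)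
    (h7 : T_D3D) : T_JC1 := by
  intro q hq0 hq1 hV δ hδ hδ1
  obtain ⟨K00, hK1, hC⟩ := h1 q hq0 hq1 hV (δ ^ 2 / 4) (by positivity) (by nlinarith)
  refine ⟨K00, hK1, ?_⟩
  intro C₀ c k₀ p₀ hPK hK0 Xc a I b k S hAX hSml hk0 ha hab hkI hS out
  have hA1 := hPK.A1
  have hq := hPK.hq
  subst hq
  have hXA : c.A ≤ Xc := by omega
  set e : Env → Env := fun ω => splice (Bx (dk c Xc k)) ω out with he
  have hx0 : (0 : ℝ) ≤ δ ^ 2 / 4 := by positivity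
  have key := h4 Env (PE c.q) S
    (fun j => {ω | ∃ i, a ≤ i ∧ i < k ∧
      VV c.q c.K0 Xc (c.A * 16 ^ k) (16 ^ k) a j i ω})
    (fun j => {ω | ¬ FC (dk c Xc j) ω}) (δ ^ 2 / 4) hx0 (by nlinarith)
    (fun S' hS' => hC c.K0 Xc c.A a k S' hK0 hA1 hXA hSml ha
      (fun j hj => ⟨hab.trans (hS j (hS' hj)).1, (hS j (hS' hj)).2⟩))
    (fun S' hS' => h2 c Xc S' (δ ^ 2 / 4) hx0 (by omega)
      (fun j hj => ha.trans (hab.trans (hS j (hS' hj)).1))
      (fun j hj => by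
        have hj' := hS j (hS' hj)
        exact hPK.fc Xc j (hk0.trans (hab.trans hj'.1)) hAX
          (h5 Xc c.A a j (by omega) (by omega) hAX hSml (hab.trans hj'.1)).2.2.1))
  have hs : 2 * √(δ ^ 2 / 4) = δ := by
    rw [show δ ^ 2 / 4 = (δ / 2) ^ 2 by ring, Real.sqrt_sq (by positivity)]
    ring
  rw [hs] at key
  refine le_trans (measure_mono ?_) key
  rintro ω ⟨hg, hb⟩ j hj
  have hj' := hS j hj
  have hbj : ¬ (GN c.q c.K0 Xc a I j (e ω) ∧ FC (dk c Xc j) (e ω)) := hb j hj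
  have heq : ∀ x, x ∈ Bx (dk c Xc k) → e ω x = ω x := fun x hx => splice_of_mem _ _ hx
  by_cases hG : GN c.q c.K0 Xc a I j (e ω)
  · right
    have hF : ¬ FC (dk c Xc j) (e ω) := fun h => hbj ⟨hG, h⟩
    have hdep := (h3 c Xc j (ha.trans (hab.trans hj'.1))).1 (e ω) ω (fun x hx => heq x (by
      rw [mem_Bx_dk]
      obtain ⟨hx1, hx2, _, hx4⟩ := hx
      have hlv := lv_mono' hj'.2.le
      refine ⟨by omega, by omega, lt_of_lt_of_le hx4 ?_⟩
      have hp : (16 : ℤ) ^ (j + 1) ≤ 16 ^ k := pow_le_pow_right₀ (by norm_num) (by omega)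
      have hA0 : 0 ≤ c.A := by omega
      calc 16 * c.A * 16 ^ j = c.A * 16 ^ (j + 1) := by ring
        _ ≤ c.A * 16 ^ k := mul_le_mul_of_nonneg_left hp hA0))
    have hdep' : FC (dk c Xc j) (e ω) = FC (dk c Xc j) ω := hdep
    show ¬ FC (dk c Xc j) ω
    rw [← hdep']
    exact hF
  · left
    obtain ⟨i, hai, hik, hVV⟩ := h6 c.q c.K0 Xc c.A a I j k (e ω) hq0 hq1 hPK.K01 ha
      (hab.trans hj'.1) hj'.2 hkI (by omega) hPK.A2 hXA hg.1 hG
    refine ⟨i, hai, hik, ?_⟩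
    have hdep := (h7 c.q c.K0 Xc (c.A * 16 ^ k) (16 ^ k) a j i ha hai).1 (e ω) ω
      (fun x hx => heq x (by
        rw [mem_Bx_dk]
        obtain ⟨hx1, hx2⟩ := hx
        have hlv := lv_mono' (show i + 1 ≤ k by omega)
        have hlv2 := lv_mono' (show a ≤ k by omega)
        have hlv3 := lv_pos' i
        have hlv4 := lv_pos' (i + 1)
        refine ⟨?_, ?_, hx2⟩
        · rcases hx1 with h | h | h <;> omega
        · rcases hx1 with h | h | h <;> omega))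
    have hdep' : VV c.q c.K0 Xc (c.A * 16 ^ k) (16 ^ k) a j i (e ω) =
      VV c.q c.K0 Xc (c.A * 16 ^ k) (16 ^ k) a j i ω := hdep
    rw [← hdep']
    exact hVV

end Pool.Agent.H42.PD
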