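import Pool.Agent.H95.ND.Targets

/-! Module TPB of Part D2 of MP_57ddd5_pr: exceptional height. -/

open MeasureTheory ProbabilityTheory
open scoped ENNReal

namespace Pool.Agent.H42.PD

open Pool.Agent.H99.NS Pool.Agent.H22.LPP Pool.Agent.H95.INS Pool.Agent.H76.ND Pool.Agent.H95.ND
open Pool.Agent.H97.NF (PEnv eA eB PN)

theorem growth (M c s : ℝ) (hM : 0 ≤ M) (hc : 0 < c) (hs : 0 < s) : ∃ B : ℝ, 0 ≤ B ∧
    ∀ m : ℕ, M * m - c * (((8 : ℝ) / 3) ^ m / 32) ^ s ≤ B := by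
  set b : ℝ := (8 / 3 : ℝ) ^ s with hb
  have hb1 : 1 < b := Real.one_lt_rpow (by norm_num) hs
  have hc' : 0 < c / 32 ^ s := by positivity
  have ht := tendsto_pow_const_div_const_pow_of_one_lt 1 hb1
  have h2 := ht.eventually (gt_mem_nhds (show 0 < (c / 32 ^ s) / (M + 1) by positivity))
  obtain ⟨N, hN⟩ := Filter.eventually_atTop.1 h2
  refine ⟨M * N, by positivity, fun m => ?_⟩
  have hx : (((8 : ℝ) / 3) ^ m / 32) ^ s = b ^ m / 32 ^ s := by
    rw [Real.div_rpow (by positivity) (by norm_num), hb, ← Real.rpow_natCast,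
      ← Real.rpow_natCast, ← Real.rpow_mul (by norm_num), ← Real.rpow_mul (by norm_num),
      mul_comm]
  rw [hx]
  have hbm : 0 < b ^ m := by positivity
  by_cases hm : N ≤ m
  · have h3 := hN m hm
    rw [pow_one, div_lt_div_iff₀ hbm (by positivity)] at h3
    have h4 : (m : ℝ) * M ≤ c / 32 ^ s * b ^ m := by
      have : (0 : ℝ) ≤ m := Nat.cast_nonneg m
      nlinarith
    have h5 : c * (b ^ m / 32 ^ s) = c / 32 ^ s * b ^ m := by ring
    have h6 : (0 : ℝ) ≤ M * N := by positivity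
    rw [h5]
    linarith
  · have h3 : (m : ℝ) ≤ N := by exact_mod_cast (not_le.1 hm).le
    have h4 : 0 ≤ c * (b ^ m / 32 ^ s) := by positivity
    nlinarith

theorem win_disj {a : ℕ} {w w' x : ℤ} (h : x ∈ win a w) (h' : x ∈ win a w') : w = w' := by
  unfold win at h h'
  obtain ⟨h1, h2⟩ := h
  obtain ⟨h3, h4⟩ := h'
  have hp : (0 : ℤ) < 16 ^ a := by positivity
  by_contra hne
  rcases lt_or_gt_of_ne hne with hlt | hlt
  · have : (w + 1) * (16 : ℤ) ^ a ≤ w' * 16 ^ a := mul_le_mul_of_nonneg_right (by omega) hp.le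
    omega
  · have : (w' + 1) * (16 : ℤ) ^ a ≤ w * 16 ^ a := mul_le_mul_of_nonneg_right (by omega) hp.le
    omega

theorem measurableSet_Lam (hM : B_LAMM) (o e : Site) (r : ℤ) (S : Set ℤ) :
    MeasurableSet {ω | Lam ω o e r ∈ S} :=
  (hM o e r).2.1 (MeasurableSet.of_discrete (s := S))

/-- Sum over the windows of the probabilities of the events `Lam j in the window, X`. -/
theorem sum_win_le (hM : B_LAMM) (q : ℝ) (o e : Site) (j : ℤ) (a1 : ℕ) (ρ : ℤ → Site → ℝ)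
    (W : Finset ℤ) (X : Set Env) (hX : MeasurableSet X) (Ev : ℤ → Set PEnv)
    (hE : ∀ w E, E ∈ Ev w → Lam (eA E) o e j ∈ win a1 w ∧ eA E ∈ X) :
    ∑ w ∈ W, PN q (ρ w) (Ev w) ≤ PE q X := by
  have hF : ∀ w, MeasurableSet ({ω | Lam ω o e j ∈ win a1 w} ∩ X) :=
    fun w => (measurableSet_Lam hM o e j _).inter hX
  calc ∑ w ∈ W, PN q (ρ w) (Ev w)
      ≤ ∑ w ∈ W, PN q (ρ w) (eA ⁻¹' ({ω | Lam ω o e j ∈ win a1 w} ∩ X)) :=
        Finset.sum_le_sum fun w _ => measure_mono fun E h => hE w E h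
    _ = ∑ w ∈ W, PE q ({ω | Lam ω o e j ∈ win a1 w} ∩ X) :=
        Finset.sum_congr rfl fun w _ =>
          (Pool.Agent.H97.NF.mp_eA q (ρ w)).measure_preimage (hF w).nullMeasurableSet
    _ = PE q (⋃ w ∈ W, ({ω | Lam ω o e j ∈ win a1 w} ∩ X)) := by
        rw [measure_biUnion_finset _ (fun w _ => hF w)]
        intro w _ w' _ hne
        refine Set.disjoint_left.2 fun ω h1 h2 => hne (win_disj h1.1 h2.1)
    _ ≤ PE q X := measure_mono (Set.iUnion₂_subset fun w _ => Set.inter_subset_right)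

theorem pf_TPB : T_TPB := by
  intro _ hM q M hq0 hq1 hM0 hT
  obtain ⟨C, c, s, hC, hc, hs, K₁, hK⟩ := hT
  obtain ⟨B, hB0, hB⟩ := growth M c s hM0 hc hs
  refine ⟨C * Real.exp B, by positivity, K₁, ?_⟩
  intro K a1 m hK1 hm j ρ W
  have hX : MeasurableSet {ω : Env | ∃ t, -lv K ≤ t ∧ t ≤ lv K ∧
      ((8 / 3 : ℝ) ^ m / 32) * 16 ^ K < |(Lam ω (oK K) (eK K) t : ℝ)|} := by
    have : {ω : Env | ∃ t, -lv K ≤ t ∧ t ≤ lv K ∧
      ((8 / 3 : ℝ) ^ m / 32) * 16 ^ K < |(Lam ω (oK K) (eK K) t : ℝ)|} =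
      ⋃ t : ℤ, {ω : Env | Lam ω (oK K) (eK K) t ∈ {x : ℤ | -lv K ≤ t ∧ t ≤ lv K ∧
      ((8 / 3 : ℝ) ^ m / 32) * 16 ^ K < |(x : ℝ)|}} := by
      ext ω
      simp only [Set.mem_ofPred_eq, Set.mem_iUnion]
    rw [this]
    exact MeasurableSet.iUnion fun t => measurableSet_Lam hM _ _ _ _
  refine (sum_win_le hM q (oK K) (eK K) j a1 ρ W _ hX _ ?_).trans
    ((hK K hK1 ((8 / 3 : ℝ) ^ m / 32) (by positivity)).trans ?_)
  · rintro w E ⟨h1, h, h2, h3⟩
    refine ⟨h1, ?_⟩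
    rcases h3.2 with h4 | ⟨t, ht1, ht2, ht3⟩
    · omega
    · refine ⟨t, ht1, ht2, ?_⟩
      have h5 : (8 / 3 : ℝ) ^ m ≤ (8 / 3) ^ (h - 1) :=
        pow_le_pow_right₀ (by norm_num) (by omega)
      have h6 : (8 / 3 : ℝ) ^ m * 16 ^ K ≤ (8 / 3) ^ (h - 1) * 16 ^ K :=
        mul_le_mul_of_nonneg_right h5 (by positivity)
      have h7 : (8 / 3 : ℝ) ^ m / 32 * 16 ^ K = (8 / 3 : ℝ) ^ m * 16 ^ K / 32 := by ring
      rw [h7]
      linarith
  · unfold tl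
    refine ENNReal.ofReal_le_ofReal ?_
    rw [mul_assoc, ← Real.exp_add]
    refine mul_le_mul_of_nonneg_left (Real.exp_le_exp.2 ?_) hC.le
    have := hB m
    linarith

end Pool.Agent.H42.PD
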